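import Pool.Agent.MP_d9582c_gt.H34.Main
import Pool.Agent.MP_d9582c_gt.H34.Bridge
import Pool.Agent.MP_d9582c_gt.H61.Car
import Pool.Agent.MP_d9582c_gt.H63.Loc

/-!
Approximation of the analytic `L²`-torsion without `L²`-acyclicity.
-/

open scoped Manifold ContDiff Topology
open MeasureTheory Set Filter Pool.Agent.MP_d9582c_gt Pool.Agent.MP_d9582c_gt.Spec

universe u v

/-- Let `G` satisfy the Approximation Conjecture for Fuglede-Kadison determinants and act properly,
freely, cocompactly and isometrically on the Riemannian manifold `M`.  For every normal chain `N`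
the analytic `L²`-torsions `ρ' i` of the quotients of `M` by `N i` converge to the analytic
`L²`-torsion `ρ` of `M`. -/
theorem Pool.Agent.Results.MP_d9582c_gt.TorsionApprox.result {n : ℕ} {M : Type u}
    [TopologicalSpace M] [T2Space M] [SecondCountableTopology M] [Nonempty M]
    [ChartedSpace (EuclideanSpace ℝ (Fin n)) M] [IsManifold 𝓘(ℝ, EuclideanSpace ℝ (Fin n)) ∞ M]
    [MeasurableSpace M] [BorelSpace M]
    {G : Type v} [Group G] [MulAction G M] [ProperlyDiscontinuousSMul G M]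
    (g : RMetric (EuclideanSpace ℝ (Fin n)) M) (μ : Measure M)
    (hμ : IsVolume g (fun i => EuclideanSpace.single i 1) volume μ) (hact : IsDeckAction g G)
    (hG : DetApprox G) (N : ℕ → Subgroup G) [∀ i, (N i).Normal] (hN : H34.IsChain N)
    (F : ℕ → Set M) (hF : ∀ i, IsFundamentalDomain (N i) (F i) μ) {ε ρ : ℝ} {ρ' : ℕ → ℝ}
    (hε : 0 < ε) (hρ : IsTorsion n g μ (⊥ : Subgroup G) univ ε ρ)
    (hρ' : ∀ i, IsTorsion n g μ (N i) (F i) ε (ρ' i)) : Tendsto ρ' atTop (𝓝 ρ) := by
  obtain ⟨_, X, rfl, rfl⟩ := H97.geo n M G g μ hμ hact.1 hact.2.1 hact.2.2.1 hact.2.2.2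
  exact H34.main H61.car H63.loc X.g X.μ hμ hact.1 hact.2.1 hact.2.2.1 hact.2.2.2
    (H34.detApprox_of hG) N hN F hF hε (H34.isTorsion_of (H34.FD.bot X) hρ)
    fun i => H34.isTorsion_of ⟨N i, inferInstance, F i, hF i⟩ (hρ' i)
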